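import Mathlib

set_option autoImplicit false

namespace Pool.Agent.Lib.Pe1e815

lemma fl_add (q A r : ℤ) (hq : 0 < q) : (r + q * A) / q = r / q + A :=
  Int.add_mul_ediv_left r A hq.ne'

lemma fl_spec (q r : ℤ) (hq : 0 < q) : q * (r / q) ≤ r ∧ r < q * (r / q) + q := by
  constructor
  · exact Int.mul_ediv_self_le hq.ne'
  · have := Int.lt_mul_ediv_self_add (x := r) hq
    exact this

lemma fl_cases_a (q r : ℤ) (hq : 0 < q) (h1 : -2 * q ≤ r) (h2 : r < 3 * q) :
    (r / q = -2 ∧ -2 * q ≤ r ∧ r < -q) ∨ (r / q = -1 ∧ -q ≤ r ∧ r < 0) ∨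
      (r / q = 0 ∧ 0 ≤ r ∧ r < q) ∨ (r / q = 1 ∧ q ≤ r ∧ r < 2 * q) ∨
      (r / q = 2 ∧ 2 * q ≤ r ∧ r < 3 * q) := by
  obtain ⟨h3, h4⟩ := fl_spec q r hq
  have h5 : -3 < r / q := by
    by_contra hh
    push Not at hh
    nlinarith
  have h6 : r / q < 3 := by
    by_contra hh
    push Not at hh
    nlinarith
  generalize r / q = s at *
  interval_cases s
  · left; exact ⟨rfl, by linarith, by linarith⟩
  · right; left; exact ⟨rfl, by linarith, by linarith⟩
  · right; right; left; exact ⟨rfl, by linarith, by linarith⟩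
  · right; right; right; left; exact ⟨rfl, by linarith, by linarith⟩
  · right; right; right; right; exact ⟨rfl, by linarith, by linarith⟩

/-- Floor inequality for the first series. -/
lemma floorA (q n m : ℤ) (hq : 5 ≤ q) (h3 : ¬ (3 : ℤ) ∣ q) :
    (3 * m) / q + (n + 1 - 2 * m) / q + (2 * n + 1) / q + 2 * ((n - m) / q) ≤
      (if q ∣ 3 * (n - m) + 2 then 1 else 0) + (2 * (n - m)) / q + (3 * n) / q + m / q := by
  have hq0 : 0 < q := by linarith
  obtain ⟨a, ν, hn, hν0, hν1⟩ : ∃ a ν : ℤ, n = ν + q * a ∧ 0 ≤ ν ∧ ν < q :=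
    ⟨n / q, n % q, (Int.emod_add_mul_ediv n q).symm, Int.emod_nonneg _ hq0.ne', Int.emod_lt_of_pos _ hq0⟩
  obtain ⟨b, μ, hm, hμ0, hμ1⟩ : ∃ b μ : ℤ, m = μ + q * b ∧ 0 ≤ μ ∧ μ < q :=
    ⟨m / q, m % q, (Int.emod_add_mul_ediv m q).symm, Int.emod_nonneg _ hq0.ne', Int.emod_lt_of_pos _ hq0⟩
  subst hn hm
  rw [show 3 * (μ + q * b) = 3 * μ + q * (3 * b) by ring,
    show ν + q * a + 1 - 2 * (μ + q * b) = (ν + 1 - 2 * μ) + q * (a - 2 * b) by ring,
    show 2 * (ν + q * a) + 1 = (2 * ν + 1) + q * (2 * a) by ring,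
    show ν + q * a - (μ + q * b) = (ν - μ) + q * (a - b) by ring,
    show 2 * (ν - μ + q * (a - b)) = 2 * (ν - μ) + q * (2 * (a - b)) by ring,
    show 3 * (ν + q * a) = 3 * ν + q * (3 * a) by ring,
    fl_add _ _ _ hq0, fl_add _ _ _ hq0, fl_add _ _ _ hq0, fl_add _ _ _ hq0, fl_add _ _ _ hq0,
    fl_add _ _ _ hq0, fl_add _ _ _ hq0]
  have hmu : μ / q = 0 := Int.ediv_eq_zero_of_lt hμ0 hμ1
  rw [hmu]
  have hiff : (q ∣ 3 * (ν - μ + q * (a - b)) + 2) ↔ q ∣ 3 * (ν - μ) + 2 := by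
    rw [show 3 * (ν - μ + q * (a - b)) + 2 = (3 * (ν - μ) + 2) + q * (3 * (a - b)) by ring]
    exact dvd_add_left (Dvd.intro _ rfl)
  simp only [hiff]
  have e1 := fl_cases_a q (3 * μ) hq0 (by linarith) (by linarith)
  have e2 := fl_cases_a q (ν + 1 - 2 * μ) hq0 (by linarith) (by linarith)
  have e3 := fl_cases_a q (2 * ν + 1) hq0 (by linarith) (by linarith)
  have e4 := fl_cases_a q (ν - μ) hq0 (by linarith) (by linarith)
  have e5 := fl_cases_a q (2 * (ν - μ)) hq0 (by linarith) (by linarith)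
  have e6 := fl_cases_a q (3 * ν) hq0 (by linarith) (by linarith)
  by_cases hd : 3 * (ν - μ) + 2 = q
  · have : q ∣ 3 * (ν - μ) + 2 := by rw [hd]
    rw [if_pos this]
    generalize (3 * μ) / q = s1 at *
    generalize (ν + 1 - 2 * μ) / q = s2 at *
    generalize (2 * ν + 1) / q = s3 at *
    generalize (ν - μ) / q = s4 at *
    generalize (2 * (ν - μ)) / q = s5 at *
    generalize (3 * ν) / q = s6 at *
    omega
  · have hite : (0 : ℤ) ≤ (if q ∣ 3 * (ν - μ) + 2 then 1 else 0) := by split_ifs <;> norm_num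
    generalize (if q ∣ 3 * (ν - μ) + 2 then (1 : ℤ) else 0) = e at *
    generalize (3 * μ) / q = s1 at *
    generalize (ν + 1 - 2 * μ) / q = s2 at *
    generalize (2 * ν + 1) / q = s3 at *
    generalize (ν - μ) / q = s4 at *
    generalize (2 * (ν - μ)) / q = s5 at *
    generalize (3 * ν) / q = s6 at *
    omega

lemma fl_cases_b (q r : ℤ) (hq : 0 < q) (h1 : -2 * q ≤ r) (h2 : r < 6 * q) :
    (r / q = -2 ∧ -2 * q ≤ r ∧ r < -q) ∨ (r / q = -1 ∧ -q ≤ r ∧ r < 0) ∨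
      (r / q = 0 ∧ 0 ≤ r ∧ r < q) ∨ (r / q = 1 ∧ q ≤ r ∧ r < 2 * q) ∨
      (r / q = 2 ∧ 2 * q ≤ r ∧ r < 3 * q) ∨ (r / q = 3 ∧ 3 * q ≤ r ∧ r < 4 * q) ∨
      (r / q = 4 ∧ 4 * q ≤ r ∧ r < 5 * q) ∨ (r / q = 5 ∧ 5 * q ≤ r ∧ r < 6 * q) := by
  obtain ⟨h3, h4⟩ := fl_spec q r hq
  have h5 : -3 < r / q := by
    by_contra hh
    push Not at hh
    nlinarith
  have h6 : r / q < 6 := by
    by_contra hh
    push Not at hh
    nlinarith
  generalize r / q = s at *
  interval_cases s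
  · left; exact ⟨rfl, by linarith, by linarith⟩
  · right; left; exact ⟨rfl, by linarith, by linarith⟩
  · right; right; left; exact ⟨rfl, by linarith, by linarith⟩
  · right; right; right; left; exact ⟨rfl, by linarith, by linarith⟩
  · right; right; right; right; left; exact ⟨rfl, by linarith, by linarith⟩
  · right; right; right; right; right; left; exact ⟨rfl, by linarith, by linarith⟩
  · right; right; right; right; right; right; left; exact ⟨rfl, by linarith, by linarith⟩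
  · right; right; right; right; right; right; right; exact ⟨rfl, by linarith, by linarith⟩

/-- Floor inequality for the second series. -/
lemma floorB (q n m : ℤ) (hq : 5 ≤ q) (h2 : ¬ (2 : ℤ) ∣ q) :
    (2 * m) / q + (2 * n + 1) / q + (2 * n + m - 1) / q + 2 * ((n - m) / q) ≤
      (if q ∣ n then 1 else 0) + (4 * n + 2 * m - 2) / q + (2 * (n - m)) / q + m / q := by
  have hq0 : 0 < q := by linarith
  obtain ⟨a, ν, hn, hν0, hν1⟩ : ∃ a ν : ℤ, n = ν + q * a ∧ 0 ≤ ν ∧ ν < q :=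
    ⟨n / q, n % q, (Int.emod_add_mul_ediv n q).symm, Int.emod_nonneg _ hq0.ne', Int.emod_lt_of_pos _ hq0⟩
  obtain ⟨b, μ, hm, hμ0, hμ1⟩ : ∃ b μ : ℤ, m = μ + q * b ∧ 0 ≤ μ ∧ μ < q :=
    ⟨m / q, m % q, (Int.emod_add_mul_ediv m q).symm, Int.emod_nonneg _ hq0.ne', Int.emod_lt_of_pos _ hq0⟩
  subst hn hm
  rw [show 2 * (μ + q * b) = 2 * μ + q * (2 * b) by ring,
    show 2 * (ν + q * a) + 1 = (2 * ν + 1) + q * (2 * a) by ring,
    show 2 * (ν + q * a) + (μ + q * b) - 1 = (2 * ν + μ - 1) + q * (2 * a + b) by ring,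
    show 4 * (ν + q * a) + (2 * μ + q * (2 * b)) - 2 = (4 * ν + 2 * μ - 2) + q * (4 * a + 2 * b) by ring,
    show ν + q * a - (μ + q * b) = (ν - μ) + q * (a - b) by ring,
    show 2 * (ν - μ + q * (a - b)) = 2 * (ν - μ) + q * (2 * (a - b)) by ring,
    fl_add _ _ _ hq0, fl_add _ _ _ hq0, fl_add _ _ _ hq0, fl_add _ _ _ hq0, fl_add _ _ _ hq0,
    fl_add _ _ _ hq0, fl_add _ _ _ hq0]
  have hmu : μ / q = 0 := Int.ediv_eq_zero_of_lt hμ0 hμ1
  rw [hmu]
  have hiff : (q ∣ ν + q * a) ↔ q ∣ ν := dvd_add_left (Dvd.intro _ rfl)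
  simp only [hiff]
  have e1 := fl_cases_b q (2 * μ) hq0 (by linarith) (by linarith)
  have e2 := fl_cases_b q (2 * ν + 1) hq0 (by linarith) (by linarith)
  have e3 := fl_cases_b q (2 * ν + μ - 1) hq0 (by linarith) (by linarith)
  have e4 := fl_cases_b q (ν - μ) hq0 (by linarith) (by linarith)
  have e5 := fl_cases_b q (2 * (ν - μ)) hq0 (by linarith) (by linarith)
  have e6 := fl_cases_b q (4 * ν + 2 * μ - 2) hq0 (by linarith) (by linarith)
  by_cases hd : ν = 0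
  · have : q ∣ ν := by rw [hd]; exact dvd_zero _
    rw [if_pos this]
    generalize (2 * μ) / q = s1 at *
    generalize (2 * ν + 1) / q = s2 at *
    generalize (2 * ν + μ - 1) / q = s3 at *
    generalize (ν - μ) / q = s4 at *
    generalize (2 * (ν - μ)) / q = s5 at *
    generalize (4 * ν + 2 * μ - 2) / q = s6 at *
    omega
  · have hite : (0 : ℤ) ≤ (if q ∣ ν then 1 else 0) := by split_ifs <;> norm_num
    generalize (if q ∣ ν then (1 : ℤ) else 0) = e at *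
    generalize (2 * μ) / q = s1 at *
    generalize (2 * ν + 1) / q = s2 at *
    generalize (2 * ν + μ - 1) / q = s3 at *
    generalize (ν - μ) / q = s4 at *
    generalize (2 * (ν - μ)) / q = s5 at *
    generalize (4 * ν + 2 * μ - 2) / q = s6 at *
    omega

end Pool.Agent.Lib.Pe1e815
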