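import Mathlib
import Pool.Agent.Lib.Pe1e815.Floor

set_option autoImplicit false

namespace Pool.Agent.Lib.Pe1e815

open Nat

lemma pvf (p x b : ℕ) [hp : Fact p.Prime] (h : x < b) :
    padicValNat p (x !) = ∑ i ∈ Finset.Ico 1 b, x / p ^ i :=
  padicValNat_factorial (lt_of_le_of_lt (Nat.log_le_self p x) h)

lemma pvx (p x b : ℕ) [hp : Fact p.Prime] (hx : 0 < x) (h : x < b) :
    padicValNat p x = ∑ i ∈ Finset.Ico 1 b, (if p ^ i ∣ x then 1 else 0) := by
  rw [← Nat.factorization_def x hp.out,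
    Nat.factorization_eq_card_pow_dvd_of_lt hp.out hx
      (lt_of_lt_of_le h (Nat.lt_pow_self hp.out.one_lt).le), Finset.card_filter]

lemma not_dvd_pow_of (p i r : ℕ) (hp : p.Prime) (hr : r.Prime) (h : p ≠ r) : ¬ ((r : ℤ) ∣ ((p : ℤ) ^ i)) := by
  intro hd
  have : (r : ℤ) ∣ ((p ^ i : ℕ) : ℤ) := by push_cast; exact hd
  rw [Int.natCast_dvd_natCast] at this
  have h2 := hr.dvd_of_dvd_pow this
  rw [Nat.prime_dvd_prime_iff_eq hr hp] at h2
  exact h h2.symm

/-- Valuation inequality for the first series. -/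
lemma valA (p n m : ℕ) [hp : Fact p.Prime] (h5 : 5 ≤ p) (hm : 1 ≤ m) (h : 2 * m ≤ n + 1) :
    padicValNat p ((3 * m)! * (n + 1 - 2 * m)! * (2 * n + 1)! * ((n - m)!) ^ 2) ≤
      padicValNat p ((3 * (n - m) + 2) * (2 * (n - m))! * (3 * n)! * m !) := by
  have hmn : m ≤ n := by omega
  rw [padicValNat.mul (by positivity) (by positivity), padicValNat.mul (by positivity) (by positivity),
    padicValNat.mul (by positivity) (by positivity), padicValNat.pow,
    padicValNat.mul (by positivity) (by positivity), padicValNat.mul (by positivity) (by positivity),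
    padicValNat.mul (by positivity) (by positivity)]
  set B := 5 * n + 5 with hB
  rw [pvf p (3 * m) B (by omega), pvf p (n + 1 - 2 * m) B (by omega), pvf p (2 * n + 1) B (by omega),
    pvf p (n - m) B (by omega), pvx p (3 * (n - m) + 2) B (by omega) (by omega),
    pvf p (2 * (n - m)) B (by omega), pvf p (3 * n) B (by omega), pvf p m B (by omega),
    Finset.mul_sum, ← Finset.sum_add_distrib, ← Finset.sum_add_distrib, ← Finset.sum_add_distrib,
    ← Finset.sum_add_distrib, ← Finset.sum_add_distrib, ← Finset.sum_add_distrib]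
  refine Finset.sum_le_sum ?_
  intro i hi
  rw [Finset.mem_Ico] at hi
  have hq : (5 : ℤ) ≤ ((p ^ i : ℕ) : ℤ) := by
    have : p ^ 1 ≤ p ^ i := Nat.pow_le_pow_right (by omega) hi.1
    rw [pow_one] at this
    exact_mod_cast h5.trans this
  have h3 : ¬ (3 : ℤ) ∣ ((p ^ i : ℕ) : ℤ) := by
    have := not_dvd_pow_of p i 3 hp.out Nat.prime_three (by omega)
    push_cast at this ⊢
    exact this
  have key := floorA ((p ^ i : ℕ) : ℤ) n m hq h3
  have c1 : (n : ℤ) + 1 - 2 * m = ((n + 1 - 2 * m : ℕ) : ℤ) := by omega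
  have c2 : (n : ℤ) - m = ((n - m : ℕ) : ℤ) := by omega
  rw [c1, c2] at key
  have c3 : ((p ^ i : ℕ) : ℤ) ∣ 3 * ((n - m : ℕ) : ℤ) + 2 ↔ p ^ i ∣ 3 * (n - m) + 2 := by
    rw [← Int.natCast_dvd_natCast]; push_cast; rfl
  simp only [c3] at key
  have key' : (((3 * m) / p ^ i + (n + 1 - 2 * m) / p ^ i + (2 * n + 1) / p ^ i +
      2 * ((n - m) / p ^ i) : ℕ) : ℤ) ≤ (((if p ^ i ∣ 3 * (n - m) + 2 then 1 else 0) +
      (2 * (n - m)) / p ^ i + (3 * n) / p ^ i + m / p ^ i : ℕ) : ℤ) := by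
    push_cast at key ⊢
    exact key
  exact_mod_cast key'

/-- Valuation inequality for the second series. -/
lemma valB (p n m : ℕ) [hp : Fact p.Prime] (h5 : 5 ≤ p) (hm : 1 ≤ m) (h : m ≤ n) :
    padicValNat p ((2 * m)! * (2 * n + 1)! * (2 * n + m - 1)! * ((n - m)!) ^ 2) ≤
      padicValNat p (n * (4 * n + 2 * m - 2)! * (2 * (n - m))! * m !) := by
  have hn : n ≠ 0 := by omega
  rw [padicValNat.mul (by positivity) (by positivity), padicValNat.mul (by positivity) (by positivity),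
    padicValNat.mul (by positivity) (by positivity), padicValNat.pow,
    padicValNat.mul (by positivity) (by positivity), padicValNat.mul (by positivity) (by positivity),
    padicValNat.mul (by positivity) (by positivity)]
  set B := 10 * n + 5 with hB
  rw [pvf p (2 * m) B (by omega), pvf p (2 * n + 1) B (by omega), pvf p (2 * n + m - 1) B (by omega),
    pvf p (n - m) B (by omega), pvx p n B (by omega) (by omega),
    pvf p (4 * n + 2 * m - 2) B (by omega), pvf p (2 * (n - m)) B (by omega), pvf p m B (by omega),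
    Finset.mul_sum, ← Finset.sum_add_distrib, ← Finset.sum_add_distrib, ← Finset.sum_add_distrib,
    ← Finset.sum_add_distrib, ← Finset.sum_add_distrib, ← Finset.sum_add_distrib]
  refine Finset.sum_le_sum ?_
  intro i hi
  rw [Finset.mem_Ico] at hi
  have hq : (5 : ℤ) ≤ ((p ^ i : ℕ) : ℤ) := by
    have : p ^ 1 ≤ p ^ i := Nat.pow_le_pow_right (by omega) hi.1
    rw [pow_one] at this
    exact_mod_cast h5.trans this
  have h2 : ¬ (2 : ℤ) ∣ ((p ^ i : ℕ) : ℤ) := by
    have := not_dvd_pow_of p i 2 hp.out Nat.prime_two (by omega)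
    push_cast at this ⊢
    exact this
  have key := floorB ((p ^ i : ℕ) : ℤ) n m hq h2
  have c1 : 2 * (n : ℤ) + m - 1 = ((2 * n + m - 1 : ℕ) : ℤ) := by omega
  have c2 : (n : ℤ) - m = ((n - m : ℕ) : ℤ) := by omega
  have c4 : 4 * (n : ℤ) + 2 * m - 2 = ((4 * n + 2 * m - 2 : ℕ) : ℤ) := by omega
  rw [c1, c2, c4] at key
  have c3 : ((p ^ i : ℕ) : ℤ) ∣ (n : ℤ) ↔ p ^ i ∣ n := by
    rw [← Int.natCast_dvd_natCast]
  simp only [c3] at key
  have key' : (((2 * m) / p ^ i + (2 * n + 1) / p ^ i + (2 * n + m - 1) / p ^ i +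
      2 * ((n - m) / p ^ i) : ℕ) : ℤ) ≤ (((if p ^ i ∣ n then 1 else 0) +
      (4 * n + 2 * m - 2) / p ^ i + (2 * (n - m)) / p ^ i + m / p ^ i : ℕ) : ℤ) := by
    push_cast at key ⊢
    exact key
  exact_mod_cast key'

end Pool.Agent.Lib.Pe1e815
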