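import Mathlib

set_option autoImplicit false

namespace Pool.Agent.Lib.Pe1e815

open Nat

/-- `F`-term for the first series (scaled by `216^j`). -/
def FA (j m : ℕ) : ℚ :=
  if 2 * m ≤ j then
    27 ^ m * (6 * ((j : ℚ) - m) + 1) * (centralBinom (j - m) : ℚ) * ((3 * j)! : ℚ) * (m ! : ℚ) /
      (((3 * m)! : ℚ) * (j ! : ℚ) ^ 2 * ((j - 2 * m)! : ℚ))
  else 0

/-- `G`-term for the first series (scaled by `216^j`). -/
def GA (j m : ℕ) : ℚ :=
  if 2 * m ≤ j + 1 then
    4 * 27 ^ m * j * (3 * ((j : ℚ) - m) + 2) * (centralBinom (j - m) : ℚ) * ((3 * j)! : ℚ) *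
      (m ! : ℚ) / (((3 * m)! : ℚ) * (j ! : ℚ) ^ 2 * ((j + 1 - 2 * m)! : ℚ))
  else 0

lemma cb_succ (k : ℕ) : ((centralBinom (k + 1) : ℕ) : ℚ) = 2 * (2 * k + 1) * (centralBinom k : ℚ) / (k + 1) := by
  have h := Nat.succ_mul_centralBinom_succ k
  have h' : ((k : ℚ) + 1) * (centralBinom (k + 1) : ℚ) = 2 * (2 * k + 1) * (centralBinom k : ℚ) := by
    exact_mod_cast h
  have hk : (k : ℚ) + 1 ≠ 0 := by positivity
  field_simp
  linarith

lemma fact3 (k : ℕ) : ((3 * (k + 1))! : ℚ) = (3 * k + 3) * (3 * k + 2) * (3 * k + 1) * ((3 * k)! : ℚ) := by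
  rw [show 3 * (k + 1) = 3 * k + 1 + 1 + 1 by ring, Nat.factorial_succ, Nat.factorial_succ,
    Nat.factorial_succ]
  push_cast
  ring

lemma fact1 (k : ℕ) : ((k + 1)! : ℚ) = (k + 1) * (k ! : ℚ) := by
  rw [Nat.factorial_succ]; push_cast; ring

lemma fne (k : ℕ) : (k ! : ℚ) ≠ 0 := by exact_mod_cast (Nat.factorial_pos k).ne'

lemma cne (k : ℕ) : (centralBinom k : ℚ) ≠ 0 := by exact_mod_cast (Nat.centralBinom_pos k).ne'

/-- WZ relation for the first series. -/
lemma wzA (j m : ℕ) : FA j m - FA j (m + 1) = GA (j + 1) (m + 1) / 216 - GA j (m + 1) := by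
  rcases lt_or_ge j (2 * m) with h | h
  · -- everything vanishes
    unfold FA GA
    rw [if_neg (by omega), if_neg (by omega), if_neg (by omega), if_neg (by omega)]
    simp
  obtain ⟨r, rfl⟩ : ∃ r, j = 2 * m + r := ⟨j - 2 * m, by omega⟩
  rcases r with _ | _ | r
  · -- `j = 2 m`
    unfold FA GA
    rw [if_pos (by omega), if_neg (by omega), if_pos (by omega), if_neg (by omega)]
    rw [show 2 * m + 0 - m = m by omega, show 2 * m + 0 + 1 - (m + 1) = m by omega,
      show 2 * m + 0 - 2 * m = 0 by omega, show 2 * m + 0 + 1 + 1 - 2 * (m + 1) = 0 by omega,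
      show 3 * (2 * m + 0 + 1) = 3 * ((2 * m) + 1) by ring, fact3 (2 * m), fact3 m, fact1 m,
      show 2 * m + 0 + 1 = 2 * m + 1 by ring, fact1 (2 * m), show 2 * m + 0 = 2 * m by ring]
    have h1 := fne m
    have h2 := fne (2 * m)
    have h3 := fne (3 * m)
    have h4 := cne m
    push_cast
    field_simp
    ring
  · -- `j = 2 m + 1`
    unfold FA GA
    rw [if_pos (by omega), if_neg (by omega), if_pos (by omega), if_pos (by omega)]
    rw [show 2 * m + (0 + 1) - m = m + 1 by omega,
      show 2 * m + (0 + 1) + 1 - (m + 1) = m + 1 by omega,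
      show 2 * m + (0 + 1) - (m + 1) = m by omega,
      show 2 * m + (0 + 1) - 2 * m = 1 by omega,
      show 2 * m + (0 + 1) + 1 + 1 - 2 * (m + 1) = 1 by omega,
      show 2 * m + (0 + 1) + 1 - 2 * (m + 1) = 0 by omega,
      show 3 * (2 * m + (0 + 1) + 1) = 3 * ((2 * m + 1) + 1) by ring, fact3 (2 * m + 1), fact3 m, fact1 m,
      show 2 * m + (0 + 1) + 1 = (2 * m + 1) + 1 by ring, fact1 (2 * m + 1),
      show 2 * m + (0 + 1) = 2 * m + 1 by ring, cb_succ]
    have h1 := fne m
    have h2 := fne (2 * m + 1)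
    have h3 := fne (3 * m)
    have h4 := cne m
    have h5 := fne (3 * (2 * m + 1))
    push_cast
    field_simp
    ring
  · -- `j = 2 m + r + 2`
    unfold FA GA
    rw [if_pos (by omega), if_pos (by omega), if_pos (by omega), if_pos (by omega)]
    rw [show 2 * m + (r + 1 + 1) - m = (m + r + 1) + 1 by omega,
      show 2 * m + (r + 1 + 1) + 1 - (m + 1) = (m + r + 1) + 1 by omega,
      show 2 * m + (r + 1 + 1) - (m + 1) = m + r + 1 by omega,
      show 2 * m + (r + 1 + 1) - 2 * m = (r + 1) + 1 by omega,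
      show 2 * m + (r + 1 + 1) + 1 + 1 - 2 * (m + 1) = (r + 1) + 1 by omega,
      show 2 * m + (r + 1 + 1) + 1 - 2 * (m + 1) = r + 1 by omega,
      show 2 * m + (r + 1 + 1) - 2 * (m + 1) = r by omega,
      show 3 * (2 * m + (r + 1 + 1) + 1) = 3 * ((2 * m + r + 2) + 1) by ring, fact3 (2 * m + r + 2),
      fact3 m, fact1 m,
      show 2 * m + (r + 1 + 1) + 1 = (2 * m + r + 2) + 1 by ring, fact1 (2 * m + r + 2),
      show 2 * m + (r + 1 + 1) = 2 * m + r + 2 by ring, cb_succ, fact1 (r + 1), fact1 r]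
    have h1 := fne m
    have h2 := fne (2 * m + r + 2)
    have h3 := fne (3 * m)
    have h4 := cne (m + r + 1)
    have h5 := fne (3 * (2 * m + r + 2))
    have h6 := fne r
    have h7 : ((m : ℚ) + r + 1 + 1) ≠ 0 := by positivity
    push_cast
    field_simp
    ring

/-- The first sum, as a rational number. -/
def sumA (n : ℕ) : ℚ :=
  ∑ j ∈ Finset.range n, (216 : ℚ) ^ (n - 1 - j) * (6 * j + 1) * ((2 * j).choose j : ℚ) ^ 2 *
    ((3 * j).choose j : ℚ)

lemma FA_zero (j : ℕ) : FA j 0 = (6 * j + 1) * ((2 * j).choose j : ℚ) ^ 2 * ((3 * j).choose j : ℚ) := by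
  unfold FA
  rw [if_pos (by omega)]
  have h1 : (((3 * j).choose j : ℕ) : ℚ) = ((3 * j)! : ℚ) / ((j ! : ℚ) * ((2 * j)! : ℚ)) := by
    rw [Nat.choose_eq_factorial_div_factorial (by omega), show 3 * j - j = 2 * j by omega,
      Nat.cast_div]
    · push_cast; rfl
    · have := Nat.factorial_mul_factorial_dvd_factorial (show j ≤ 3 * j by omega)
      rwa [show 3 * j - j = 2 * j by omega] at this
    · have := fne j
      have := fne (2 * j)
      push_cast
      positivity
  have h2 : (((2 * j).choose j : ℕ) : ℚ) = ((2 * j)! : ℚ) / ((j ! : ℚ) * (j ! : ℚ)) := by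
    rw [Nat.choose_eq_factorial_div_factorial (by omega), show 2 * j - j = j by omega,
      Nat.cast_div]
    · push_cast; rfl
    · have := Nat.factorial_mul_factorial_dvd_factorial (show j ≤ 2 * j by omega)
      rwa [show 2 * j - j = j by omega] at this
    · have := fne j
      push_cast
      positivity
  have h3 : (centralBinom j : ℚ) = ((2 * j)! : ℚ) / ((j ! : ℚ) * (j ! : ℚ)) := by
    rw [← h2]; rfl
  simp only [Nat.sub_zero, mul_zero, Nat.factorial_zero, Nat.cast_one, pow_zero, one_mul, mul_one,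
    Nat.cast_zero, sub_zero]
  rw [h1, h2, h3]
  have := fne j
  have := fne (2 * j)
  field_simp

lemma sumA_succ (n : ℕ) : sumA (n + 1) = 216 * sumA n + FA n 0 := by
  unfold sumA
  rw [Finset.sum_range_succ, FA_zero, Finset.mul_sum]
  congr 1
  · refine Finset.sum_congr rfl ?_
    intro j hj
    rw [Finset.mem_range] at hj
    rw [show n + 1 - 1 - j = (n - 1 - j) + 1 by omega, pow_succ]
    ring
  · rw [show n + 1 - 1 - n = 0 by omega]
    ring

/-- Closed single-sum form of the first series. -/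
lemma sumA_eq (n M : ℕ) (hM : n ≤ M) :
    216 * sumA n = ∑ m ∈ Finset.range M, GA n (m + 1) := by
  have key : ∀ n M : ℕ, n ≤ 2 * M + 1 →  216 * sumA n = ∑ m ∈ Finset.range (M + 1), GA n (m + 1) := by
    intro n
    induction n with
    | zero =>
      intro M _
      have : ∀ m ∈ Finset.range (M + 1), GA 0 (m + 1) = 0 := by
        intro m _
        unfold GA
        rw [if_neg (by omega)]
      rw [Finset.sum_congr rfl this]
      simp [sumA]
    | succ n ih =>
      intro M hM
      have h1 := ih M (by omega)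
      have h2 : ∑ m ∈ Finset.range (M + 1), (FA n m - FA n (m + 1)) = FA n 0 - FA n (M + 1) :=
        Finset.sum_range_sub' _ _
      have h3 : FA n (M + 1) = 0 := by
        unfold FA
        rw [if_neg (by omega)]
      rw [h3, sub_zero] at h2
      have h4 : ∑ m ∈ Finset.range (M + 1), (FA n m - FA n (m + 1)) =
          (∑ m ∈ Finset.range (M + 1), GA (n + 1) (m + 1)) / 216 -
            ∑ m ∈ Finset.range (M + 1), GA n (m + 1) := by
        rw [Finset.sum_div, ← Finset.sum_sub_distrib]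
        exact Finset.sum_congr rfl (fun m _ => wzA n m)
      rw [sumA_succ, mul_add, ← h2, h4]
      rw [← h1]
      ring
  rcases M with _ | M
  · have : n = 0 := by omega
    subst this
    simp [sumA]
  · exact key n M (by omega)

/-! ### Second series -/

/-- `F`-term for the second series (scaled by `2304^j`). -/
def FB (j m : ℕ) : ℚ :=
  if m ≤ j then
    (16 / 3 : ℚ) ^ m * (8 * (j : ℚ) + 1 - 2 * m) * (centralBinom (j - m) : ℚ) *
      ((4 * j + 2 * m)! : ℚ) * (m ! : ℚ) /
      (((2 * m)! : ℚ) * (j ! : ℚ) ^ 2 * ((2 * j + m)! : ℚ))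
  else 0

/-- `G`-term for the second series (scaled by `2304^j`), at index `m + 1`. -/
def GB (j m : ℕ) : ℚ :=
  if m + 1 ≤ j then
    72 * (j : ℚ) ^ 2 * (16 / 3 : ℚ) ^ (m + 1) * (centralBinom (j - (m + 1)) : ℚ) *
      ((4 * j + 2 * m)! : ℚ) * ((m + 1)! : ℚ) /
      (((2 * (m + 1))! : ℚ) * (j ! : ℚ) ^ 2 * ((2 * j + m)! : ℚ))
  else 0

lemma fact2 (k : ℕ) : ((2 * (k + 1))! : ℚ) = (2 * k + 2) * (2 * k + 1) * ((2 * k)! : ℚ) := by
  rw [show 2 * (k + 1) = 2 * k + 1 + 1 by ring, Nat.factorial_succ, Nat.factorial_succ]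
  push_cast
  ring

lemma fact2' (k : ℕ) : ((k + 2)! : ℚ) = (k + 2) * (k + 1) * (k ! : ℚ) := by
  rw [Nat.factorial_succ, Nat.factorial_succ]
  push_cast
  ring

lemma fact4 (k : ℕ) : ((k + 4)! : ℚ) = (k + 4) * (k + 3) * (k + 2) * (k + 1) * (k ! : ℚ) := by
  rw [Nat.factorial_succ, Nat.factorial_succ, Nat.factorial_succ, Nat.factorial_succ]
  push_cast
  ring

/-- WZ relation for the second series. -/
lemma wzB (j m : ℕ) : FB j m - FB j (m + 1) = GB (j + 1) m / 2304 - GB j m := by
  rcases lt_or_ge j m with h | h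
  · unfold FB GB
    rw [if_neg (by omega), if_neg (by omega), if_neg (by omega), if_neg (by omega)]
    simp
  obtain ⟨r, rfl⟩ : ∃ r, j = m + r := ⟨j - m, by omega⟩
  rcases r with _ | r
  · unfold FB GB
    rw [if_pos (by omega), if_neg (by omega), if_pos (by omega), if_neg (by omega)]
    rw [show m + 0 - m = 0 by omega, show m + 0 + 1 - (m + 1) = 0 by omega,
      show 4 * (m + 0 + 1) + 2 * m = (4 * m + 2 * m) + 4 by ring, fact4,
      show 2 * (m + 0 + 1) + m = (2 * m + m) + 2 by ring, fact2', fact1 m,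
      show m + 0 + 1 = m + 1 by ring, fact2, show m + 0 = m by ring]
    have h1 := fne m
    have h2 := fne (2 * m)
    have h3 := fne (2 * m + m)
    have h4 := fne (4 * m + 2 * m)
    push_cast
    field_simp
    ring
  · unfold FB GB
    rw [if_pos (by omega), if_pos (by omega), if_pos (by omega), if_pos (by omega)]
    rw [show m + (r + 1) - m = r + 1 by omega, show m + (r + 1) - (m + 1) = r by omega,
      show m + (r + 1) + 1 - (m + 1) = r + 1 by omega,
      show 4 * (m + (r + 1) + 1) + 2 * m = (4 * (m + (r + 1)) + 2 * m) + 4 by ring, fact4,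
      show 4 * (m + (r + 1)) + 2 * (m + 1) = (4 * (m + (r + 1)) + 2 * m) + 2 by ring, fact2',
      show 2 * (m + (r + 1) + 1) + m = (2 * (m + (r + 1)) + m) + 2 by ring,
      fact2' (2 * (m + (r + 1)) + m),
      show 2 * (m + (r + 1)) + (m + 1) = (2 * (m + (r + 1)) + m) + 1 by ring,
      fact1 (2 * (m + (r + 1)) + m), fact1 m, fact1 (m + (r + 1)), fact2, cb_succ]
    have h1 := fne m
    have h2 := fne (2 * m)
    have h3 := fne (2 * (m + (r + 1)) + m)
    have h4 := fne (4 * (m + (r + 1)) + 2 * m)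
    have h5 := fne (m + (r + 1))
    have h6 := cne r
    push_cast
    field_simp
    ring

/-- The second sum, as a rational number. -/
def sumB (n : ℕ) : ℚ :=
  ∑ j ∈ Finset.range n, (2304 : ℚ) ^ (n - 1 - j) * (8 * j + 1) *
    (((4 * j)! : ℚ) / ((j ! : ℚ) ^ 4))

lemma FB_zero (j : ℕ) : FB j 0 = (8 * j + 1) * (((4 * j)! : ℚ) / ((j ! : ℚ) ^ 4)) := by
  unfold FB
  rw [if_pos (by omega)]
  have h2 : (((2 * j).choose j : ℕ) : ℚ) = ((2 * j)! : ℚ) / ((j ! : ℚ) * (j ! : ℚ)) := by
    rw [Nat.choose_eq_factorial_div_factorial (by omega), show 2 * j - j = j by omega,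
      Nat.cast_div]
    · push_cast; rfl
    · have := Nat.factorial_mul_factorial_dvd_factorial (show j ≤ 2 * j by omega)
      rwa [show 2 * j - j = j by omega] at this
    · have := fne j
      push_cast
      positivity
  have h3 : (centralBinom j : ℚ) = ((2 * j)! : ℚ) / ((j ! : ℚ) * (j ! : ℚ)) := by
    rw [← h2]; rfl
  simp only [Nat.sub_zero, mul_zero, Nat.factorial_zero, Nat.cast_one, pow_zero, one_mul, mul_one,
    Nat.cast_zero, sub_zero, add_zero]
  rw [h3]
  have := fne j
  have := fne (2 * j)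
  field_simp

lemma sumB_succ (n : ℕ) : sumB (n + 1) = 2304 * sumB n + FB n 0 := by
  unfold sumB
  rw [Finset.sum_range_succ, FB_zero, Finset.mul_sum]
  congr 1
  · refine Finset.sum_congr rfl ?_
    intro j hj
    rw [Finset.mem_range] at hj
    rw [show n + 1 - 1 - j = (n - 1 - j) + 1 by omega, pow_succ]
    ring
  · rw [show n + 1 - 1 - n = 0 by omega]
    ring

/-- Closed single-sum form of the second series. -/
lemma sumB_eq (n M : ℕ) (hM : n ≤ M) :
    2304 * sumB n = ∑ m ∈ Finset.range M, GB n m := by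
  have key : ∀ n M : ℕ, n ≤ M →  2304 * sumB n = ∑ m ∈ Finset.range M, GB n m := by
    intro n
    induction n with
    | zero =>
      intro M _
      have : ∀ m ∈ Finset.range M, GB 0 m = 0 := by
        intro m _
        unfold GB
        rw [if_neg (by omega)]
      rw [Finset.sum_congr rfl this]
      simp [sumB]
    | succ n ih =>
      intro M hM
      have h1 := ih M (by omega)
      have h2 : ∑ m ∈ Finset.range M, (FB n m - FB n (m + 1)) = FB n 0 - FB n M :=
        Finset.sum_range_sub' _ _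
      have h3 : FB n M = 0 := by
        unfold FB
        rw [if_neg (by omega)]
      rw [h3, sub_zero] at h2
      have h4 : ∑ m ∈ Finset.range M, (FB n m - FB n (m + 1)) =
          (∑ m ∈ Finset.range M, GB (n + 1) m) / 2304 -
            ∑ m ∈ Finset.range M, GB n m := by
        rw [Finset.sum_div, ← Finset.sum_sub_distrib]
        exact Finset.sum_congr rfl (fun m _ => wzB n m)
      rw [sumB_succ, mul_add, ← h2, h4]
      rw [← h1]
      ring
  exact key n M hM

end Pool.Agent.Lib.Pe1e815
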