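import Mathlib
import Pool.Agent.Lib.Pe1e815.WZ
import Pool.Agent.Lib.Pe1e815.Val

set_option autoImplicit false

namespace Pool.Agent.Lib.Pe1e815

open Nat

/-- integer version of the first sum -/
def AN (n : ℕ) : ℕ :=
  ∑ j ∈ Finset.range n, 216 ^ (n - 1 - j) * (6 * j + 1) * ((2 * j).choose j) ^ 2 * ((3 * j).choose j)

/-- integer version of the second sum -/
def BN (n : ℕ) : ℕ :=
  ∑ j ∈ Finset.range n, 2304 ^ (n - 1 - j) * (8 * j + 1) * ((2 * j).choose j) ^ 2 *
    ((2 * (2 * j)).choose (2 * j))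

/-- the common denominator `n (2n+1) C(2n,n)` -/
def DN (n : ℕ) : ℕ := n * (2 * n + 1) * (2 * n).choose n

lemma sumA_eq_cast (n : ℕ) : sumA n = (AN n : ℚ) := by
  unfold sumA AN
  push_cast
  rfl

lemma choose_cast (j : ℕ) : (((2 * j).choose j : ℕ) : ℚ) = ((2 * j)! : ℚ) / ((j ! : ℚ) * (j ! : ℚ)) := by
  rw [Nat.choose_eq_factorial_div_factorial (by omega), show 2 * j - j = j by omega,
    Nat.cast_div]
  · push_cast; rfl
  · have := Nat.factorial_mul_factorial_dvd_factorial (show j ≤ 2 * j by omega)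
    rwa [show 2 * j - j = j by omega] at this
  · have := fne j
    push_cast
    positivity

lemma sumB_eq_cast (n : ℕ) : sumB n = (BN n : ℚ) := by
  unfold sumB BN
  push_cast
  refine Finset.sum_congr rfl ?_
  intro j _
  rw [choose_cast, choose_cast, show 2 * (2 * j) = 4 * j by ring]
  have h1 := fne j
  have h2 := fne (2 * j)
  field_simp

lemma DN_pos (n : ℕ) (hn : 1 ≤ n) : 0 < DN n := by
  unfold DN
  have : 0 < (2 * n).choose n := Nat.choose_pos (by omega)
  positivity

lemma DN_cast (n : ℕ) : (DN n : ℚ) = n * ((2 * n + 1)! : ℚ) / ((n ! : ℚ) ^ 2) := by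
  unfold DN
  push_cast
  rw [choose_cast, fact1 (2 * n)]
  have h1 := fne n
  push_cast
  field_simp

lemma norm_le_one (p : ℕ) [hp : Fact p.Prime] (N M : ℕ) (hN : N ≠ 0) (hM : M ≠ 0)
    (h : padicValNat p M ≤ padicValNat p N) : padicNorm p ((N : ℚ) / (M : ℚ)) ≤ 1 := by
  have hN' : (N : ℚ) ≠ 0 := by exact_mod_cast hN
  have hM' : (M : ℚ) ≠ 0 := by exact_mod_cast hM
  rw [padicNorm.eq_zpow_of_nonzero (div_ne_zero hN' hM'), padicValRat.div hN' hM',
    padicValRat.of_nat, padicValRat.of_nat]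
  have h1 : (1 : ℚ) ≤ (p : ℚ) := by exact_mod_cast hp.out.one_lt.le
  apply zpow_le_one_of_nonpos₀ h1
  have : (padicValNat p M : ℤ) ≤ (padicValNat p N : ℤ) := by exact_mod_cast h
  linarith

lemma dvd_of_norm (p : ℕ) [hp : Fact p.Prime] (A D : ℕ) (hD : D ≠ 0)
    (h : padicNorm p ((A : ℚ) / (D : ℚ)) ≤ 1) (k : ℕ) (hk : p ^ k ∣ D) : p ^ k ∣ A := by
  have hD' : (D : ℚ) ≠ 0 := by exact_mod_cast hD
  rw [padicNorm.div] at h
  have hpos : 0 < padicNorm p (D : ℚ) :=
    lt_of_le_of_ne (padicNorm.nonneg _) (Ne.symm (padicNorm.nonzero hD'))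
  rw [div_le_one hpos] at h
  have h1 : padicNorm p ((D : ℤ) : ℚ) ≤ (p : ℚ) ^ (-k : ℤ) := by
    rw [← padicNorm.dvd_iff_norm_le]
    exact_mod_cast hk
  have h2 : padicNorm p ((A : ℤ) : ℚ) ≤ (p : ℚ) ^ (-k : ℤ) := by
    refine le_trans ?_ h1
    exact_mod_cast h
  rw [← padicNorm.dvd_iff_norm_le] at h2
  exact_mod_cast h2

lemma centralBinom_cast (j : ℕ) : ((centralBinom j : ℕ) : ℚ) = ((2 * j)! : ℚ) / ((j ! : ℚ) * (j ! : ℚ)) := by
  rw [← choose_cast]; rfl

/-- For `p ≥ 5`, powers of `p` dividing `DN n` divide `AN n`. -/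
lemma bigA (p n : ℕ) [hp : Fact p.Prime] (h5 : 5 ≤ p) (hn : 1 ≤ n) (k : ℕ) (hk : p ^ k ∣ DN n) :
    p ^ k ∣ AN n := by
  have hD := (DN_pos n hn).ne'
  refine dvd_of_norm p (AN n) (DN n) hD ?_ k hk
  have hD' : (DN n : ℚ) ≠ 0 := by exact_mod_cast hD
  have h1 : ((AN n : ℚ) / (DN n : ℚ)) = ∑ m ∈ Finset.range n, GA n (m + 1) / (216 * (DN n : ℚ)) := by
    rw [← Finset.sum_div, ← sumA_eq n n le_rfl, sumA_eq_cast]
    field_simp
  rw [h1]
  refine padicNorm.sum_le' ?_ zero_le_one
  intro m _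
  by_cases hm : 2 * (m + 1) ≤ n + 1
  · have hmn : m + 1 ≤ n := by omega
    have hval := valA p n (m + 1) h5 (by omega) hm
    set N := (3 * (n - (m + 1)) + 2) * (2 * (n - (m + 1)))! * (3 * n)! * (m + 1)! with hNdef
    set M := (3 * (m + 1))! * (n + 1 - 2 * (m + 1))! * (2 * n + 1)! * ((n - (m + 1))!) ^ 2 with hMdef
    have hN0 : N ≠ 0 := by positivity
    have hM0 : M ≠ 0 := by positivity
    have hterm : GA n (m + 1) / (216 * (DN n : ℚ)) = ((27 ^ m * N : ℕ) : ℚ) / ((2 * M : ℕ) : ℚ) := by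
      unfold GA
      rw [if_pos hm, DN_cast, centralBinom_cast, hNdef, hMdef]
      have c2 : (n : ℚ) - ((m + 1 : ℕ) : ℚ) = ((n - (m + 1) : ℕ) : ℚ) := by
        rw [Nat.cast_sub hmn]
      rw [c2]
      have g1 := fne n
      have g2 := fne (3 * n)
      have g3 := fne (2 * n + 1)
      have g4 := fne (m + 1)
      have g5 := fne (3 * (m + 1))
      have g6 := fne (n + 1 - 2 * (m + 1))
      have g7 := fne (n - (m + 1))
      have g8 := fne (2 * (n - (m + 1)))
      have g9 : (n : ℚ) ≠ 0 := by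
        have : 0 < n := hn
        positivity
      push_cast
      generalize ((n - (m + 1) : ℕ) : ℚ) = x at *
      field_simp
      ring
    rw [hterm]
    refine norm_le_one p _ _ (by positivity) (by positivity) ?_
    rw [padicValNat.mul (by norm_num) hM0, padicValNat.mul (by positivity) hN0]
    have h2 : padicValNat p 2 = 0 := by
      apply padicValNat.eq_zero_of_not_dvd
      intro hd
      have := Nat.le_of_dvd (by norm_num) hd
      omega
    rw [h2, zero_add]
    exact le_trans hval (Nat.le_add_left _ _)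
  · have : GA n (m + 1) = 0 := by
      unfold GA
      rw [if_neg hm]
    rw [this, zero_div, padicNorm.zero]
    exact zero_le_one

/-- For `p ≥ 5`, powers of `p` dividing `DN n` divide `BN n`. -/
lemma bigB (p n : ℕ) [hp : Fact p.Prime] (h5 : 5 ≤ p) (hn : 1 ≤ n) (k : ℕ) (hk : p ^ k ∣ DN n) :
    p ^ k ∣ BN n := by
  have hD := (DN_pos n hn).ne'
  refine dvd_of_norm p (BN n) (DN n) hD ?_ k hk
  have hD' : (DN n : ℚ) ≠ 0 := by exact_mod_cast hD
  have h1 : ((BN n : ℚ) / (DN n : ℚ)) = ∑ m ∈ Finset.range n, GB n m / (2304 * (DN n : ℚ)) := by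
    rw [← Finset.sum_div, ← sumB_eq n n le_rfl, sumB_eq_cast]
    field_simp
  rw [h1]
  refine padicNorm.sum_le' ?_ zero_le_one
  intro m _
  by_cases hm : m + 1 ≤ n
  · have hval := valB p n (m + 1) h5 (by omega) hm
    rw [show 2 * n + (m + 1) - 1 = 2 * n + m by omega,
      show 4 * n + 2 * (m + 1) - 2 = 4 * n + 2 * m by omega] at hval
    set N := n * (4 * n + 2 * m)! * (2 * (n - (m + 1)))! * (m + 1)! with hNdef
    set M := (2 * (m + 1))! * (2 * n + 1)! * (2 * n + m)! * ((n - (m + 1))!) ^ 2 with hMdef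
    have hn0 : n ≠ 0 := by omega
    have hN0 : N ≠ 0 := by positivity
    have hM0 : M ≠ 0 := by positivity
    have hterm : GB n m / (2304 * (DN n : ℚ)) =
        ((16 ^ (m + 1) * N : ℕ) : ℚ) / ((32 * 3 ^ (m + 1) * M : ℕ) : ℚ) := by
      unfold GB
      rw [if_pos hm, DN_cast, centralBinom_cast, hNdef, hMdef]
      have g1 := fne n
      have g3 := fne (2 * n + 1)
      have g4 := fne (m + 1)
      have g5 := fne (2 * (m + 1))
      have g6 := fne (2 * n + m)
      have g7 := fne (n - (m + 1))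
      have g8 := fne (2 * (n - (m + 1)))
      have g9 : (n : ℚ) ≠ 0 := by
        have : 0 < n := hn
        positivity
      rw [div_pow]
      push_cast
      field_simp
      ring
    rw [hterm]
    refine norm_le_one p _ _ (by positivity) (by positivity) ?_
    rw [padicValNat.mul (by positivity) hM0, padicValNat.mul (by positivity) hN0,
      padicValNat.mul (by norm_num) (by positivity), show (32 : ℕ) = 2 ^ 5 by norm_num,
      padicValNat.pow, padicValNat.pow]
    have h2 : padicValNat p 2 = 0 := by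
      apply padicValNat.eq_zero_of_not_dvd
      intro hd
      have := Nat.le_of_dvd (by norm_num) hd
      omega
    have h3 : padicValNat p 3 = 0 := by
      apply padicValNat.eq_zero_of_not_dvd
      intro hd
      have := Nat.le_of_dvd (by norm_num) hd
      omega
    rw [h2, h3, mul_zero, mul_zero, zero_add, zero_add]
    exact le_trans hval (Nat.le_add_left _ _)
  · have : GB n m = 0 := by
      unfold GB
      rw [if_neg hm]
    rw [this, zero_div, padicNorm.zero]
    exact zero_le_one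

end Pool.Agent.Lib.Pe1e815
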