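import Mathlib
import Pool.Agent.Lib.Pe1e815.Big

set_option autoImplicit false

namespace Pool.Agent.Lib.Pe1e815

open Nat

/-! ### The prime 2 -/

lemma beta_succ (j : ℕ) : padicValNat 2 (centralBinom (j + 1)) ≤ padicValNat 2 (centralBinom j) + 1 := by
  have h := Nat.succ_mul_centralBinom_succ j
  have hc1 := (Nat.centralBinom_pos (j + 1)).ne'
  have hc0 := (Nat.centralBinom_pos j).ne'
  have h1 := congrArg (padicValNat 2) h
  rw [padicValNat.mul (by omega) hc1, padicValNat.mul (by omega) hc0,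
    padicValNat.mul (by norm_num) (by omega)] at h1
  have h2 : padicValNat 2 2 = 1 := by simp
  have h3 : padicValNat 2 (2 * j + 1) = 0 := padicValNat.eq_zero_of_not_dvd (by omega)
  rw [h2, h3] at h1
  omega

lemma beta_add (j t : ℕ) : padicValNat 2 (centralBinom (j + t)) ≤ padicValNat 2 (centralBinom j) + t := by
  induction t with
  | zero => simp
  | succ t ih =>
    have := beta_succ (j + t)
    rw [show j + (t + 1) = j + t + 1 by ring]
    omega

lemma beta_pos (j : ℕ) (hj : 1 ≤ j) : 1 ≤ padicValNat 2 (centralBinom j) := by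
  have h := Nat.two_dvd_centralBinom_of_one_le hj
  exact one_le_padicValNat_of_dvd (Nat.centralBinom_pos j).ne' h

lemma DN_succ (j : ℕ) : DN (j + 1) = 2 * (2 * j + 1) * centralBinom j * (2 * j + 3) := by
  have h := Nat.succ_mul_centralBinom_succ j
  unfold DN
  rw [show (2 * (j + 1)).choose (j + 1) = centralBinom (j + 1) from rfl]
  calc (j + 1) * (2 * (j + 1) + 1) * centralBinom (j + 1)
      = ((j + 1) * centralBinom (j + 1)) * (2 * j + 3) := by ring
    _ = _ := by rw [h]

lemma val2_DN (j : ℕ) : padicValNat 2 (DN (j + 1)) = 1 + padicValNat 2 (centralBinom j) := by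
  have hc0 := (Nat.centralBinom_pos j).ne'
  rw [DN_succ, padicValNat.mul (by positivity) (by omega), padicValNat.mul (by positivity) hc0,
    padicValNat.mul (by norm_num) (by omega)]
  have h2 : padicValNat 2 2 = 1 := by simp
  have h3 : padicValNat 2 (2 * j + 1) = 0 := padicValNat.eq_zero_of_not_dvd (by omega)
  have h4 : padicValNat 2 (2 * j + 3) = 0 := padicValNat.eq_zero_of_not_dvd (by omega)
  rw [h2, h3, h4]
  ring

lemma two_A (n : ℕ) (hn : 2 ≤ n) (k : ℕ) (hk : 2 ^ k ∣ DN n) : 2 ^ k ∣ AN n := by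
  obtain ⟨n', rfl⟩ : ∃ n', n = n' + 1 := ⟨n - 1, by omega⟩
  have hD := (DN_pos (n' + 1) (by omega)).ne'
  have hk' : k ≤ 1 + padicValNat 2 (centralBinom n') := by
    rw [← val2_DN]
    exact (padicValNat_dvd_iff_le hD).mp hk
  unfold AN
  refine Finset.dvd_sum ?_
  intro j hj
  rw [Finset.mem_range] at hj
  obtain ⟨t, ht⟩ : ∃ t, n' = j + t := ⟨n' - j, by omega⟩
  have hb := beta_add j t
  have hjp := beta_pos j
  rw [show n' + 1 - 1 - j = t by omega]
  rw [ht] at hk'
  set β := padicValNat 2 (centralBinom j) with hβ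
  have hle : k ≤ 3 * t + β * 2 := by
    rcases Nat.eq_zero_or_pos j with h0 | h0
    · have ht1 : 1 ≤ t := by omega
      omega
    · have := hjp h0
      omega
  have hd1 : 2 ^ (3 * t) ∣ 216 ^ t := by
    rw [pow_mul]
    exact pow_dvd_pow_of_dvd (by norm_num) t
  have hd2 : 2 ^ (β * 2) ∣ (centralBinom j) ^ 2 := by
    rw [pow_mul]
    exact pow_dvd_pow_of_dvd pow_padicValNat_dvd 2
  have hd3 : 2 ^ (3 * t + β * 2) ∣ 216 ^ t * (centralBinom j) ^ 2 := by
    rw [pow_add]; exact mul_dvd_mul hd1 hd2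
  refine dvd_trans (pow_dvd_pow 2 hle) (dvd_trans hd3 ?_)
  refine ⟨(6 * j + 1) * ((3 * j).choose j), ?_⟩
  rw [show (2 * j).choose j = centralBinom j from rfl]
  ring

lemma two_B (n : ℕ) (hn : 2 ≤ n) (k : ℕ) (hk : 2 ^ k ∣ 2 * DN n) : 2 ^ k ∣ BN n := by
  obtain ⟨n', rfl⟩ : ∃ n', n = n' + 1 := ⟨n - 1, by omega⟩
  have hD := (DN_pos (n' + 1) (by omega)).ne'
  have hk' : k ≤ 2 + padicValNat 2 (centralBinom n') := by
    have h1 : padicValNat 2 (2 * DN (n' + 1)) = 2 + padicValNat 2 (centralBinom n') := by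
      rw [padicValNat.mul (by norm_num) hD, val2_DN]
      have h2 : padicValNat 2 2 = 1 := by simp
      rw [h2]; ring
    rw [← h1]
    exact (padicValNat_dvd_iff_le (by positivity)).mp hk
  unfold BN
  refine Finset.dvd_sum ?_
  intro j hj
  rw [Finset.mem_range] at hj
  obtain ⟨t, ht⟩ : ∃ t, n' = j + t := ⟨n' - j, by omega⟩
  have hb := beta_add j t
  have hjp := beta_pos j
  have hjp2 := beta_pos (2 * j)
  rw [show n' + 1 - 1 - j = t by omega]
  rw [ht] at hk'
  set β := padicValNat 2 (centralBinom j) with hβ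
  set γ := padicValNat 2 (centralBinom (2 * j)) with hγ
  have hle : k ≤ 8 * t + β * 2 + γ := by
    rcases Nat.eq_zero_or_pos j with h0 | h0
    · have ht1 : 1 ≤ t := by omega
      omega
    · have := hjp h0
      have := hjp2 (by omega)
      omega
  have hd1 : 2 ^ (8 * t) ∣ 2304 ^ t := by
    rw [pow_mul]
    exact pow_dvd_pow_of_dvd (by norm_num) t
  have hd2 : 2 ^ (β * 2) ∣ (centralBinom j) ^ 2 := by
    rw [pow_mul]
    exact pow_dvd_pow_of_dvd pow_padicValNat_dvd 2
  have hd4 : 2 ^ γ ∣ centralBinom (2 * j) := pow_padicValNat_dvd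
  have hd3 : 2 ^ (8 * t + β * 2 + γ) ∣ 2304 ^ t * (centralBinom j) ^ 2 * centralBinom (2 * j) := by
    rw [pow_add, pow_add]; exact mul_dvd_mul (mul_dvd_mul hd1 hd2) hd4
  refine dvd_trans (pow_dvd_pow 2 hle) (dvd_trans hd3 ?_)
  refine ⟨(8 * j + 1), ?_⟩
  rw [show (2 * j).choose j = centralBinom j from rfl,
    show (2 * (2 * j)).choose (2 * j) = centralBinom (2 * j) from rfl]
  ring

/-! ### The prime 3 -/

/-- 3-adic valuation of `x!` -/
def V (x : ℕ) : ℕ := padicValNat 3 (x !)

lemma V_three (a r : ℕ) (hr : r < 3) : V (3 * a + r) = a + V a := by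
  unfold V
  rw [padicValNat_factorial_mul_add a hr, padicValNat_factorial_mul]
  ring

lemma V_succ (x : ℕ) : V (x + 1) = padicValNat 3 (x + 1) + V x := by
  unfold V
  rw [Nat.factorial_succ, padicValNat.mul (by omega) (Nat.factorial_pos x).ne']

lemma V_lt (x : ℕ) (hx : x ≠ 0) : 2 * V x < x :=
  sub_one_mul_padicValNat_factorial_lt_of_ne_zero 3 hx

lemma V_zero : V 0 = 0 := by simp [V]

lemma V_le (x : ℕ) : 2 * V x ≤ x := by
  rcases eq_or_ne x 0 with rfl | hx
  · simp [V_zero]
  · exact (V_lt x hx).le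

lemma V_mono {x y : ℕ} (h : x ≤ y) : V x ≤ V y := by
  induction y, h using Nat.le_induction with
  | base => exact le_rfl
  | succ y _ ih => rw [V_succ]; omega

lemma S1 (e : ℕ) : ∀ j : ℕ, 3 ^ e ∣ 2 * j + 1 →
    (2 * j + 1 = 3 ^ e → 2 * V j + e = j) ∧ (2 * j + 1 ≠ 3 ^ e → 2 * V j + e + 1 ≤ j) := by
  induction e with
  | zero =>
    intro j _
    refine ⟨?_, ?_⟩
    · intro h
      have : j = 0 := by rw [pow_zero] at h; omega
      subst this
      simp [V_zero]
    · intro h
      have hj : j ≠ 0 := by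
        rintro rfl
        exact h (by simp)
      have := V_lt j hj
      omega
  | succ e ih =>
    intro j hj
    have h3 : 3 ∣ 2 * j + 1 := dvd_trans (dvd_pow_self 3 (by omega)) hj
    obtain ⟨a, rfl⟩ : ∃ a, j = 3 * a + 1 := ⟨j / 3, by omega⟩
    have e1 : 2 * (3 * a + 1) + 1 = 3 * (2 * a + 1) := by ring
    rw [e1, pow_succ, mul_comm (3 ^ e) 3] at hj ⊢
    have hd : 3 ^ e ∣ 2 * a + 1 := Nat.dvd_of_mul_dvd_mul_left (by norm_num) hj
    obtain ⟨ih1, ih2⟩ := ih a hd
    rw [V_three a 1 (by norm_num)]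
    refine ⟨?_, ?_⟩
    · intro h
      have : 2 * a + 1 = 3 ^ e := by omega
      have := ih1 this
      omega
    · intro h
      have : 2 * a + 1 ≠ 3 ^ e := by
        intro h'
        exact h (by rw [h'])
      have := ih2 this
      omega

/-- `L j = v_3 ((4j)! / ((2j)! j!^2)) ≥ 1` for `j ≥ 1`. -/
lemma L_pos (j : ℕ) (hj : 1 ≤ j) : V (2 * j) + 2 * V j + 1 ≤ V (4 * j) ∧ V (2 * j) + 2 * V j ≤ V (4 * j) := by
  induction j using Nat.strong_induction_on with
  | _ j ih =>
    have hr : j % 3 = 0 ∨ j % 3 = 1 ∨ j % 3 = 2 := by omega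
    rcases hr with h | h | h
    · obtain ⟨a, rfl⟩ : ∃ a, j = 3 * a + 0 := ⟨j / 3, by omega⟩
      have ha : 1 ≤ a := by omega
      have := ih a (by omega) ha
      rw [show 2 * (3 * a + 0) = 3 * (2 * a) + 0 by ring, show 4 * (3 * a + 0) = 3 * (4 * a) + 0 by ring,
        V_three _ _ (by norm_num), V_three _ _ (by norm_num), V_three _ _ (by norm_num)]
      omega
    · obtain ⟨a, rfl⟩ : ∃ a, j = 3 * a + 1 := ⟨j / 3, by omega⟩
      have h0 : V (2 * a) + 2 * V a ≤ V (4 * a) := by
        rcases Nat.eq_zero_or_pos a with rfl | ha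
        · simp [V_zero]
        · exact (ih a (by omega) ha).2
      rw [show 2 * (3 * a + 1) = 3 * (2 * a) + 2 by ring, show 4 * (3 * a + 1) = 3 * (4 * a + 1) + 1 by ring,
        V_three _ _ (by norm_num), V_three _ _ (by norm_num), V_three _ _ (by norm_num), V_succ]
      omega
    · obtain ⟨a, rfl⟩ : ∃ a, j = 3 * a + 2 := ⟨j / 3, by omega⟩
      have h0 : V (2 * a) + 2 * V a ≤ V (4 * a) := by
        rcases Nat.eq_zero_or_pos a with rfl | ha
        · simp [V_zero]
        · exact (ih a (by omega) ha).2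
      rw [show 2 * (3 * a + 2) = 3 * (2 * a + 1) + 1 by ring, show 4 * (3 * a + 2) = 3 * (4 * a + 2) + 2 by ring,
        V_three _ _ (by norm_num), V_three _ _ (by norm_num), V_three _ _ (by norm_num), V_succ (2 * a),
        show 4 * a + 2 = 4 * a + 1 + 1 by ring, V_succ (4 * a + 1), V_succ (4 * a)]
      have h1 : padicValNat 3 (4 * a + 1 + 1) = padicValNat 3 (2 * a + 1) := by
        rw [show 4 * a + 1 + 1 = 2 * (2 * a + 1) by ring, padicValNat.mul (by norm_num) (by omega)]
        have : padicValNat 3 2 = 0 := padicValNat.eq_zero_of_not_dvd (by norm_num)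
        rw [this, zero_add]
      rw [h1]
      omega

lemma S2 (e : ℕ) : ∀ j : ℕ, 3 ^ e ∣ 2 * j + 1 →
    (2 * j + 1 = 3 ^ e → V (4 * j) = V (2 * j) + 2 * V j + e) ∧
    (2 * j + 1 ≠ 3 ^ e → V (2 * j) + 2 * V j + e + 1 ≤ V (4 * j)) := by
  induction e with
  | zero =>
    intro j _
    refine ⟨?_, ?_⟩
    · intro h
      have : j = 0 := by rw [pow_zero] at h; omega
      subst this
      simp [V_zero]
    · intro h
      have hj : j ≠ 0 := by
        rintro rfl
        exact h (by simp)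
      have := L_pos j (by omega)
      omega
  | succ e ih =>
    intro j hj
    have h3 : 3 ∣ 2 * j + 1 := dvd_trans (dvd_pow_self 3 (by omega)) hj
    obtain ⟨a, rfl⟩ : ∃ a, j = 3 * a + 1 := ⟨j / 3, by omega⟩
    have e1 : 2 * (3 * a + 1) + 1 = 3 * (2 * a + 1) := by ring
    rw [e1, pow_succ, mul_comm (3 ^ e) 3] at hj ⊢
    have hd : 3 ^ e ∣ 2 * a + 1 := Nat.dvd_of_mul_dvd_mul_left (by norm_num) hj
    obtain ⟨ih1, ih2⟩ := ih a hd
    rw [show 2 * (3 * a + 1) = 3 * (2 * a) + 2 by ring, show 4 * (3 * a + 1) = 3 * (4 * a + 1) + 1 by ring,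
        V_three _ _ (by norm_num), V_three _ _ (by norm_num), V_three _ _ (by norm_num), V_succ]
    refine ⟨?_, ?_⟩
    · intro h
      have h' : 2 * a + 1 = 3 ^ e := by omega
      have h1 := ih1 h'
      have h2 : padicValNat 3 (4 * a + 1) = 0 := by
        rcases e with _ | e
        · have : a = 0 := by rw [pow_zero] at h'; omega
          subst this
          simp
        · apply padicValNat.eq_zero_of_not_dvd
          rw [pow_succ] at h'
          omega
      rw [h2]
      omega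
    · intro h
      have h' : 2 * a + 1 ≠ 3 ^ e := by
        intro h'
        exact h (by rw [h'])
      have := ih2 h'
      omega

lemma val3_cb (j : ℕ) : padicValNat 3 (centralBinom j) + 2 * V j = V (2 * j) := by
  have h : centralBinom j * (j ! * j !) = (2 * j)! := by
    have := Nat.choose_mul_factorial_mul_factorial (show j ≤ 2 * j by omega)
    rw [show 2 * j - j = j by omega] at this
    rw [← this, Nat.centralBinom]
    ring
  have h1 := congrArg (padicValNat 3) h
  have hc := (Nat.centralBinom_pos j).ne'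
  rw [padicValNat.mul hc (by positivity), padicValNat.mul (by positivity) (by positivity)] at h1
  unfold V
  omega

lemma val3_choose (j : ℕ) : padicValNat 3 ((3 * j).choose j) + V j + V (2 * j) = V (3 * j) := by
  have h := Nat.choose_mul_factorial_mul_factorial (show j ≤ 3 * j by omega)
  rw [show 3 * j - j = 2 * j by omega] at h
  have h1 := congrArg (padicValNat 3) h
  have hc : (3 * j).choose j ≠ 0 := (Nat.choose_pos (by omega)).ne'
  rw [padicValNat.mul (by positivity) (by positivity), padicValNat.mul hc (by positivity)] at h1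
  unfold V
  exact h1

lemma val3_DN (n : ℕ) (hn : 1 ≤ n) :
    padicValNat 3 (DN n) + 2 * V n = padicValNat 3 n + V (2 * n + 1) := by
  have hc := (Nat.centralBinom_pos n).ne'
  unfold DN
  rw [show (2 * n).choose n = centralBinom n from rfl, padicValNat.mul (by positivity) hc,
    padicValNat.mul (by omega) (by omega), V_succ]
  have := val3_cb n
  omega

lemma val3_DN' (j : ℕ) : padicValNat 3 (DN (j + 1)) =
    padicValNat 3 (2 * j + 1) + padicValNat 3 (centralBinom j) + padicValNat 3 (2 * j + 3) := by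
  have hc0 := (Nat.centralBinom_pos j).ne'
  rw [DN_succ, padicValNat.mul (by positivity) (by omega), padicValNat.mul (by positivity) hc0,
    padicValNat.mul (by norm_num) (by omega)]
  have h2 : padicValNat 3 2 = 0 := padicValNat.eq_zero_of_not_dvd (by norm_num)
  rw [h2]
  ring

/-- the `j`-th term of the first sum -/
def tA (n j : ℕ) : ℕ := 216 ^ (n - 1 - j) * (6 * j + 1) * ((2 * j).choose j) ^ 2 * ((3 * j).choose j)

/-- the `j`-th term of the second sum -/
def tB (n j : ℕ) : ℕ := 2304 ^ (n - 1 - j) * (8 * j + 1) * ((2 * j).choose j) ^ 2 *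
    ((2 * (2 * j)).choose (2 * j))

lemma tA_pos (n j : ℕ) : tA n j ≠ 0 := by
  unfold tA
  have h1 : 0 < (2 * j).choose j := Nat.choose_pos (by omega)
  have h2 : 0 < (3 * j).choose j := Nat.choose_pos (by omega)
  positivity

lemma tB_pos (n j : ℕ) : tB n j ≠ 0 := by
  unfold tB
  have h1 : 0 < (2 * j).choose j := Nat.choose_pos (by omega)
  have h2 : 0 < (2 * (2 * j)).choose (2 * j) := Nat.choose_pos (by omega)
  positivity

lemma val3_216 (t : ℕ) : padicValNat 3 (216 ^ t) = 3 * t := by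
  rw [padicValNat.pow, show (216 : ℕ) = 3 ^ 3 * 8 by norm_num, padicValNat.mul (by norm_num) (by norm_num),
    padicValNat.prime_pow]
  have : padicValNat 3 8 = 0 := padicValNat.eq_zero_of_not_dvd (by norm_num)
  rw [this]
  ring

lemma val3_2304 (t : ℕ) : padicValNat 3 (2304 ^ t) = 2 * t := by
  rw [padicValNat.pow, show (2304 : ℕ) = 3 ^ 2 * 256 by norm_num, padicValNat.mul (by norm_num) (by norm_num),
    padicValNat.prime_pow]
  have : padicValNat 3 256 = 0 := padicValNat.eq_zero_of_not_dvd (by norm_num)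
  rw [this]
  ring

lemma val3_tA (n j : ℕ) : padicValNat 3 (tA n j) + 2 * V j = 3 * (n - 1 - j) +
    padicValNat 3 (centralBinom j) + j := by
  unfold tA
  have h1 : (2 * j).choose j ≠ 0 := (Nat.choose_pos (by omega)).ne'
  have h2 : (3 * j).choose j ≠ 0 := (Nat.choose_pos (by omega)).ne'
  rw [padicValNat.mul (by positivity) h2, padicValNat.mul (by positivity) (by positivity),
    padicValNat.mul (by positivity) (by omega), val3_216, padicValNat.pow,
    show (2 * j).choose j = centralBinom j from rfl]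
  have h3 : padicValNat 3 (6 * j + 1) = 0 := padicValNat.eq_zero_of_not_dvd (by omega)
  have h4 := val3_cb j
  have h5 := val3_choose j
  have h6 := V_three j 0 (by norm_num)
  rw [add_zero] at h6
  rw [h3]
  omega

lemma val3_tB (n j : ℕ) : padicValNat 3 (tB n j) + V (2 * j) + 2 * V j = 2 * (n - 1 - j) +
    padicValNat 3 (8 * j + 1) + padicValNat 3 (centralBinom j) + V (4 * j) := by
  unfold tB
  have h1 : (2 * j).choose j ≠ 0 := (Nat.choose_pos (by omega)).ne'
  have h2 : (2 * (2 * j)).choose (2 * j) ≠ 0 := (Nat.choose_pos (by omega)).ne'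
  rw [padicValNat.mul (by positivity) h2, padicValNat.mul (by positivity) (by positivity),
    padicValNat.mul (by positivity) (by omega), val3_2304, padicValNat.pow,
    show (2 * j).choose j = centralBinom j from rfl,
    show (2 * (2 * j)).choose (2 * j) = centralBinom (2 * j) from rfl]
  have h4 := val3_cb j
  have h5 := val3_cb (2 * j)
  rw [show 2 * (2 * j) = 4 * j by ring] at h5
  omega

lemma V_four (j : ℕ) : V (3 * j) + V j ≤ V (4 * j) := by
  have h := Nat.factorial_mul_factorial_dvd_factorial_add (3 * j) j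
  rw [show 3 * j + j = 4 * j by ring] at h
  have h1 := (padicValNat_dvd_iff_le (p := 3) (by positivity)).mp (dvd_trans (pow_padicValNat_dvd (p := 3)) h)
  rw [padicValNat.mul (by positivity) (by positivity)] at h1
  exact h1

/-- upper bound for the target valuation -/
lemma val3_DN_le (n j : ℕ) (hj : j + 2 ≤ n) : padicValNat 3 (DN n) + 2 * V j ≤ n := by
  have h1 := val3_DN n (by omega)
  have h2 := V_le (2 * n + 1)
  have h3 : V n = padicValNat 3 n + V (n - 1) := by
    obtain ⟨n', rfl⟩ : ∃ n', n = n' + 1 := ⟨n - 1, by omega⟩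
    exact V_succ n'
  have h4 : V j ≤ V (n - 1) := V_mono (by omega)
  omega

lemma tA_low (n j : ℕ) (hj : j + 2 ≤ n) : padicValNat 3 (DN n) + 1 ≤ padicValNat 3 (tA n j) := by
  have h1 := val3_DN_le n j hj
  have h2 := val3_tA n j
  omega

lemma tB_low (n j : ℕ) (hj : j + 2 ≤ n) : padicValNat 3 (DN n) ≤ padicValNat 3 (tB n j) := by
  have h1 := val3_DN_le n j hj
  have h2 := val3_tB n j
  have h3 := V_four j
  have h4 := V_three j 0 (by norm_num)
  rw [add_zero] at h4
  have h5 := val3_cb j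
  omega

/-- valuations of `2j+1` and `2j+3` -/
lemma top_case (j : ℕ) (hj : 1 ≤ j) :
    ((¬ ∃ m : ℕ, 2 * j + 3 = 3 ^ m) →
      padicValNat 3 (2 * j + 1) + padicValNat 3 (2 * j + 3) + 2 * V j ≤ j ∧
      padicValNat 3 (2 * j + 1) + padicValNat 3 (2 * j + 3) + V (2 * j) + 2 * V j ≤ V (4 * j)) ∧
    ((∃ m : ℕ, 2 * j + 3 = 3 ^ m) →
      padicValNat 3 (2 * j + 1) + padicValNat 3 (2 * j + 3) + 2 * V j = j + 1 ∧
      padicValNat 3 (2 * j + 1) + padicValNat 3 (2 * j + 3) + V (2 * j) + 2 * V j = V (4 * j) + 1 ∧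
      padicValNat 3 (8 * j + 1) = 0) := by
  rcases Nat.eq_zero_or_pos (j % 3) with h | h
  · -- `j = 3a`
    obtain ⟨a, rfl⟩ : ∃ a, j = 3 * a + 0 := ⟨j / 3, by omega⟩
    have e1 : padicValNat 3 (2 * (3 * a + 0) + 1) = 0 := padicValNat.eq_zero_of_not_dvd (by omega)
    have e2 : padicValNat 3 (2 * (3 * a + 0) + 3) = 1 + padicValNat 3 (2 * a + 1) := by
      rw [show 2 * (3 * a + 0) + 3 = 3 * (2 * a + 1) by ring, padicValNat.mul (by norm_num) (by omega),
        padicValNat_self]
    have e3 : V (2 * (3 * a + 0)) = 2 * a + V (2 * a) := by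
      rw [show 2 * (3 * a + 0) = 3 * (2 * a) + 0 by ring, V_three _ _ (by norm_num)]
    have e4 : V (4 * (3 * a + 0)) = 4 * a + V (4 * a) := by
      rw [show 4 * (3 * a + 0) = 3 * (4 * a) + 0 by ring, V_three _ _ (by norm_num)]
    have e5 : V (3 * a + 0) = a + V a := V_three _ _ (by norm_num)
    rw [e1, e2, e3, e4, e5]
    set f := padicValNat 3 (2 * a + 1) with hf
    have hd : 3 ^ f ∣ 2 * a + 1 := pow_padicValNat_dvd
    obtain ⟨s1, s2⟩ := S1 f a hd
    obtain ⟨r1, r2⟩ := S2 f a hd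
    refine ⟨?_, ?_⟩
    · intro hne
      have hne' : 2 * a + 1 ≠ 3 ^ f := by
        intro h'
        apply hne
        refine ⟨f + 1, ?_⟩
        rw [pow_succ, ← h']
        ring
      have := s2 hne'
      have := r2 hne'
      constructor <;> omega
    · rintro ⟨m, hm⟩
      have hm0 : m ≠ 0 := by
        rintro rfl
        rw [pow_zero] at hm
        omega
      obtain ⟨m', rfl⟩ : ∃ m', m = m' + 1 := ⟨m - 1, by omega⟩
      have hm' : 2 * a + 1 = 3 ^ m' := by
        rw [pow_succ] at hm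
        omega
      have hfm : f = m' := by
        rw [hf, hm', padicValNat.prime_pow]
      rw [← hfm] at hm'
      have := s1 hm'
      have := r1 hm'
      have h8 : padicValNat 3 (8 * (3 * a + 0) + 1) = 0 := padicValNat.eq_zero_of_not_dvd (by omega)
      refine ⟨by omega, by omega, h8⟩
  · have e2 : padicValNat 3 (2 * j + 3) = 0 := padicValNat.eq_zero_of_not_dvd (by omega)
    rw [e2]
    set f := padicValNat 3 (2 * j + 1) with hf
    have hd : 3 ^ f ∣ 2 * j + 1 := pow_padicValNat_dvd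
    obtain ⟨s1, s2⟩ := S1 f j hd
    obtain ⟨r1, r2⟩ := S2 f j hd
    refine ⟨?_, ?_⟩
    · intro _
      rcases eq_or_ne (2 * j + 1) (3 ^ f) with h' | h'
      · have := s1 h'
        have := r1 h'
        constructor <;> omega
      · have := s2 h'
        have := r2 h'
        constructor <;> omega
    · rintro ⟨m, hm⟩
      exfalso
      rcases m with _ | m
      · rw [pow_zero] at hm; omega
      · rw [pow_succ] at hm; omega

lemma three_A (n : ℕ) (hn : 2 ≤ n) (hp : ¬ ∃ m : ℕ, 2 * n + 1 = 3 ^ m) (k : ℕ) (hk : 3 ^ k ∣ DN n) :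
    3 ^ k ∣ AN n := by
  have hD := (DN_pos n (by omega)).ne'
  have hk' := (padicValNat_dvd_iff_le hD).mp hk
  have : AN n = ∑ j ∈ Finset.range n, tA n j := rfl
  rw [this]
  refine Finset.dvd_sum ?_
  intro j hj
  rw [Finset.mem_range] at hj
  rw [padicValNat_dvd_iff_le (tA_pos n j)]
  rcases Nat.lt_or_ge (j + 1) n with h | h
  · have := tA_low n j (by omega)
    omega
  · have hjn : n = j + 1 := by omega
    subst hjn
    have h1 := (top_case j (by omega)).1 (by
      rintro ⟨m, hm⟩
      exact hp ⟨m, by omega⟩)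
    have h2 := val3_tA (j + 1) j
    have h3 := val3_DN' j
    omega

lemma three_B (n : ℕ) (hn : 2 ≤ n) (hp : ¬ ∃ m : ℕ, 2 * n + 1 = 3 ^ m) (k : ℕ) (hk : 3 ^ k ∣ DN n) :
    3 ^ k ∣ BN n := by
  have hD := (DN_pos n (by omega)).ne'
  have hk' := (padicValNat_dvd_iff_le hD).mp hk
  have : BN n = ∑ j ∈ Finset.range n, tB n j := rfl
  rw [this]
  refine Finset.dvd_sum ?_
  intro j hj
  rw [Finset.mem_range] at hj
  rw [padicValNat_dvd_iff_le (tB_pos n j)]
  rcases Nat.lt_or_ge (j + 1) n with h | h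
  · have := tB_low n j (by omega)
    omega
  · have hjn : n = j + 1 := by omega
    subst hjn
    have h1 := (top_case j (by omega)).1 (by
      rintro ⟨m, hm⟩
      exact hp ⟨m, by omega⟩)
    have h2 := val3_tB (j + 1) j
    have h3 := val3_DN' j
    omega

/-- In the exceptional case the exact power of `3` in `AN n` is one less than in `DN n`. -/
lemma three_A' (n : ℕ) (hn : 2 ≤ n) (hp : ∃ m : ℕ, 2 * n + 1 = 3 ^ m) :
    (∀ k, 3 ^ k ∣ DN n → 3 ^ k ∣ 3 * AN n) ∧ ¬ 3 ^ (padicValNat 3 (DN n)) ∣ AN n := by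
  have hD := (DN_pos n (by omega)).ne'
  obtain ⟨j, rfl⟩ : ∃ j, n = j + 1 := ⟨n - 1, by omega⟩
  have h1 := (top_case j (by omega)).2 (by
      obtain ⟨m, hm⟩ := hp
      exact ⟨m, by omega⟩)
  have h2 := val3_tA (j + 1) j
  have h3 := val3_DN' j
  have hv : padicValNat 3 (tA (j + 1) j) + 1 = padicValNat 3 (DN (j + 1)) := by omega
  have hlow : ∀ i ∈ Finset.range j, 3 ^ (padicValNat 3 (DN (j + 1))) ∣ tA (j + 1) i := by
    intro i hi
    rw [Finset.mem_range] at hi
    rw [padicValNat_dvd_iff_le (tA_pos _ _)]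
    have := tA_low (j + 1) i (by omega)
    omega
  have hsum : AN (j + 1) = ∑ i ∈ Finset.range j, tA (j + 1) i + tA (j + 1) j := by
    have : AN (j + 1) = ∑ i ∈ Finset.range (j + 1), tA (j + 1) i := rfl
    rw [this, Finset.sum_range_succ]
  refine ⟨?_, ?_⟩
  · intro k hk
    have hk' := (padicValNat_dvd_iff_le hD).mp hk
    refine dvd_trans (pow_dvd_pow 3 hk') ?_
    rw [hsum, mul_add]
    refine dvd_add (Dvd.dvd.mul_left (Finset.dvd_sum hlow) 3) ?_
    rw [padicValNat_dvd_iff_le (by have := tA_pos (j + 1) j; positivity),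
      padicValNat.mul (by norm_num) (tA_pos _ _), padicValNat_self]
    omega
  · intro hd
    rw [hsum, Nat.dvd_add_right (Finset.dvd_sum hlow), padicValNat_dvd_iff_le (tA_pos _ _)] at hd
    omega

lemma three_B' (n : ℕ) (hn : 2 ≤ n) (hp : ∃ m : ℕ, 2 * n + 1 = 3 ^ m) :
    (∀ k, 3 ^ k ∣ DN n → 3 ^ k ∣ 3 * BN n) ∧ ¬ 3 ^ (padicValNat 3 (DN n)) ∣ BN n := by
  have hD := (DN_pos n (by omega)).ne'
  obtain ⟨j, rfl⟩ : ∃ j, n = j + 1 := ⟨n - 1, by omega⟩
  have h1 := (top_case j (by omega)).2 (by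
      obtain ⟨m, hm⟩ := hp
      exact ⟨m, by omega⟩)
  have h2 := val3_tB (j + 1) j
  have h3 := val3_DN' j
  have hv : padicValNat 3 (tB (j + 1) j) + 1 = padicValNat 3 (DN (j + 1)) := by omega
  have hlow : ∀ i ∈ Finset.range j, 3 ^ (padicValNat 3 (DN (j + 1))) ∣ tB (j + 1) i := by
    intro i hi
    rw [Finset.mem_range] at hi
    rw [padicValNat_dvd_iff_le (tB_pos _ _)]
    exact tB_low (j + 1) i (by omega)
  have hsum : BN (j + 1) = ∑ i ∈ Finset.range j, tB (j + 1) i + tB (j + 1) j := by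
    have : BN (j + 1) = ∑ i ∈ Finset.range (j + 1), tB (j + 1) i := rfl
    rw [this, Finset.sum_range_succ]
  refine ⟨?_, ?_⟩
  · intro k hk
    have hk' := (padicValNat_dvd_iff_le hD).mp hk
    refine dvd_trans (pow_dvd_pow 3 hk') ?_
    rw [hsum, mul_add]
    refine dvd_add (Dvd.dvd.mul_left (Finset.dvd_sum hlow) 3) ?_
    rw [padicValNat_dvd_iff_le (by have := tB_pos (j + 1) j; positivity),
      padicValNat.mul (by norm_num) (tB_pos _ _), padicValNat_self]
    omega
  · intro hd
    rw [hsum, Nat.dvd_add_right (Finset.dvd_sum hlow), padicValNat_dvd_iff_le (tB_pos _ _)] at hd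
    omega

end Pool.Agent.Lib.Pe1e815
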